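import Pool.Agent.Helper15.FC.St1

/-!
# Project FC (MP_16cbc0_nt), module INJ
-/

set_option autoImplicit false

namespace Pool.Agent.Helper9.FC

open Pool.Agent.Helper15.FC Polynomial

/-- the shifted power series -/
private noncomputable def injG {L : Type} [Field L] {M : ℕ} (f : Fin M → PowerSeries L) (t : ℕ)
    (i : Fin M) : PowerSeries L := PowerSeries.mk fun n => PowerSeries.coeff (n + t) (f i)

private theorem injG_eq {L : Type} [Field L] {M : ℕ} (f : Fin M → PowerSeries L) (t : ℕ)
    (i : Fin M) : injG f t i =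
      PowerSeries.C (PowerSeries.coeff t (f i)) + PowerSeries.X * injG f (t + 1) i := by
  ext n
  rw [map_add]
  cases n with
  | zero =>
    rw [PowerSeries.coeff_zero_X_mul, add_zero, injG, PowerSeries.coeff_mk, zero_add,
      PowerSeries.coeff_zero_C]
  | succ n =>
    rw [PowerSeries.coeff_succ_X_mul, injG, injG, PowerSeries.coeff_mk, PowerSeries.coeff_mk,
      PowerSeries.coeff_C, if_neg (Nat.succ_ne_zero n), zero_add,
      show n + 1 + t = n + (t + 1) by omega]

theorem hINJ : StINJ := by
  classical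
  intro L _ _ p hp _ m M f s hli hdiv hs hsum
  have hP0 : p ^ m ≠ 0 := pow_ne_zero _ hp.out.ne_zero
  have _ : CharP (PowerSeries L) p :=
    charP_of_injective_algebraMap (algebraMap L (PowerSeries L)).injective p
  -- all the sums vanish
  have hstep : ∀ t, ∑ i, s i * injG f t i ^ (p ^ m) = 0 →
      (∑ i, (PowerSeries.coeff t (f i) ^ (p ^ m)) • s i = 0 ∧
        ∑ i, s i * injG f (t + 1) i ^ (p ^ m) = 0) := by
    intro t ht
    have h1 : ∑ i, (PowerSeries.coeff t (f i) ^ (p ^ m)) • s i +
        PowerSeries.X ^ (p ^ m) * ∑ i, s i * injG f (t + 1) i ^ (p ^ m) = 0 := by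
      rw [← ht, Finset.mul_sum, ← Finset.sum_add_distrib]
      refine Finset.sum_congr rfl fun i _ => ?_
      rw [injG_eq f t i, add_pow_char_pow, mul_pow, PowerSeries.smul_eq_C_mul,
        map_pow PowerSeries.C]
      ring
    have h2 : ∑ i, (PowerSeries.coeff t (f i) ^ (p ^ m)) • s i = 0 := by
      by_contra h
      refine hdiv (fun i => PowerSeries.coeff t (f i) ^ (p ^ m)) h ?_
      refine ⟨-∑ i, s i * injG f (t + 1) i ^ (p ^ m), ?_⟩
      linear_combination h1
    refine ⟨h2, ?_⟩
    rw [h2, zero_add] at h1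
    rcases mul_eq_zero.1 h1 with h | h
    · exact absurd h (pow_ne_zero _ PowerSeries.X_ne_zero)
    · exact h
  have hall : ∀ t, ∑ i, s i * injG f t i ^ (p ^ m) = 0 := by
    intro t
    induction t with
    | zero =>
      rw [← hsum]
      refine Finset.sum_congr rfl fun i _ => ?_
      congr 2
      ext n
      rw [injG, PowerSeries.coeff_mk, add_zero]
    | succ t ih => exact (hstep t ih).2
  -- the field is perfect
  have hsurj : ∀ a : L, ∃ b : L, b ^ (p ^ m) = a := by
    intro a
    have hinj : Function.Injective (iterateFrobenius L p m) :=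
      (iterateFrobenius L p m).injective
    obtain ⟨b, hb⟩ := (Finite.injective_iff_surjective.1 hinj) a
    exact ⟨b, by rw [← hb, iterateFrobenius_def]⟩
  obtain ⟨i₀, hi₀⟩ := hs
  apply hi₀
  ext u
  choose μ hμ using fun i => hsurj (PowerSeries.coeff u (s i))
  have h3 : ∑ i, μ i • f i = 0 := by
    ext t
    have h4 := congrArg (PowerSeries.coeff u) (hstep t (hall t)).1
    rw [map_sum, map_zero] at h4
    have h5 : (∑ i, μ i * PowerSeries.coeff t (f i)) ^ (p ^ m) = 0 := by
      rw [sum_pow_char_pow, ← h4]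
      refine Finset.sum_congr rfl fun i _ => ?_
      rw [mul_pow, hμ, PowerSeries.coeff_smul, smul_eq_mul, mul_comm]
    rw [map_sum, map_zero, ← pow_eq_zero_iff hP0, ← h5]
    congr 1
  have h6 := Fintype.linearIndependent_iff.1 hli μ h3 i₀
  rw [← hμ, h6, zero_pow hP0, map_zero]

end Pool.Agent.Helper9.FC
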