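import Pool.Agent.Helper15.FC.St3

set_option autoImplicit false

open Polynomial

namespace Pool.Agent.Helper9.FC

open Pool.Agent.Helper15.FC

/-- one term of the singular series -/
noncomputable def cf {F : Type} [Field F] [Fintype F] (P P' : F[X] → ℝ[X]) (h : F[X])
    (a b i : ℕ) : ℝ :=
  ∑ r ∈ Mn F i, (P r).coeff a * (P' r).coeff b * (cram r h : ℝ)

theorem one_lt_qr (F : Type) [Field F] [Fintype F] : 1 < qr F := by
  unfold qr
  exact_mod_cast Fintype.one_lt_card

/-- summability of the singular series -/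
theorem summable_cf (hTLB : StTLB) {F : Type} [Field F] [Fintype F] {k l : ℕ}
    {P P' : F[X] → ℝ[X]} (hk : 1 ≤ k) (hl : 1 ≤ l) (hP : PolOK F k P) (hP' : PolOK F l P')
    {h : F[X]} (hh : h ≠ 0) (a b : ℕ) : Summable (cf P P' h a b) := by
  obtain ⟨C, hC, hb⟩ := hTLB F k l P P' hk hl hP hP'
  have hq : 1 < qr F := one_lt_qr F
  have hq0 : 0 < qr F := by linarith
  have hr1 : qr F ^ (-(3 / 4 : ℝ)) < 1 :=
    Real.rpow_lt_one_of_one_lt_of_neg hq (by norm_num)
  have hr0 : 0 ≤ qr F ^ (-(3 / 4 : ℝ)) := Real.rpow_nonneg hq0.le _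
  have hg : Summable (fun i : ℕ => C * tau h * (qr F ^ (-(3 / 4 : ℝ))) ^ i) :=
    (summable_geometric_of_lt_one hr0 hr1).mul_left _
  refine Summable.of_norm_bounded hg ?_
  intro i
  have h1 := hb h a b i hh
  have h2 : qr F ^ (-(3 / 4 : ℝ) * i) = (qr F ^ (-(3 / 4 : ℝ))) ^ i := by
    rw [Real.rpow_mul hq0.le, Real.rpow_natCast]
  rw [h2] at h1
  refine le_trans ?_ h1
  unfold cf
  rw [Real.norm_eq_abs]
  refine le_trans (Finset.abs_sum_le_sum_abs _ _) ?_
  refine Finset.sum_le_sum fun r _ => ?_
  rw [abs_mul, abs_mul]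

/-- PLY. -/
theorem hPLY (hTLB : StTLB) : StPLY := by
  intro F _ _ k l P P' hk hl hP hP' h hh
  have hsum := fun a b => summable_cf hTLB hk hl hP hP' hh a b
  refine ⟨∑ a ∈ Finset.range k, ∑ b ∈ Finset.range l,
    C (∑' i : ℕ, cf P P' h a b i) * X ^ (a + b), ?_, ?_, ?_⟩
  · refine Polynomial.natDegree_sum_le_of_forall_le _ _ fun a ha => ?_
    refine Polynomial.natDegree_sum_le_of_forall_le _ _ fun b hb => ?_
    refine le_trans (Polynomial.natDegree_C_mul_X_pow_le _ _) ?_
    rw [Finset.mem_range] at ha hb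
    omega
  · intro n
    unfold Mt
    congr 1
    have h1 : ∀ i : ℕ, Ti P P' n h i = ∑ a ∈ Finset.range k, ∑ b ∈ Finset.range l,
        cf P P' h a b i * (n : ℝ) ^ (a + b) := by
      intro i
      unfold Ti cf
      have h2 : ∀ r ∈ Mn F i, (P r).eval (n : ℝ) * (P' r).eval (n : ℝ) * (cram r h : ℝ) =
          ∑ a ∈ Finset.range k, ∑ b ∈ Finset.range l,
            (P r).coeff a * (P' r).coeff b * (cram r h : ℝ) * (n : ℝ) ^ (a + b) := by
        intro r hr
        have hrm := (mem_Mn.1 hr).1
        have d1 : (P r).natDegree < k := by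
          have := (hP r hrm).1
          omega
        have d2 : (P' r).natDegree < l := by
          have := (hP' r hrm).1
          omega
        rw [Polynomial.eval_eq_sum_range' d1, Polynomial.eval_eq_sum_range' d2,
          Finset.sum_mul_sum, Finset.sum_mul]
        refine Finset.sum_congr rfl fun a _ => ?_
        rw [Finset.sum_mul]
        refine Finset.sum_congr rfl fun b _ => ?_
        rw [pow_add]
        ring
      rw [Finset.sum_congr rfl h2, Finset.sum_comm]
      refine Finset.sum_congr rfl fun a _ => ?_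
      rw [Finset.sum_comm]
      refine Finset.sum_congr rfl fun b _ => ?_
      rw [Finset.sum_mul]
    simp only [h1]
    rw [Summable.tsum_finsetSum fun a _ => summable_sum fun b _ => (hsum a b).mul_right _]
    rw [Polynomial.eval_finset_sum]
    refine Finset.sum_congr rfl fun a _ => ?_
    rw [Summable.tsum_finsetSum fun b _ => (hsum a b).mul_right _]
    rw [Polynomial.eval_finset_sum]
    refine Finset.sum_congr rfl fun b _ => ?_
    rw [tsum_mul_right]
    simp
  · rw [Polynomial.finset_sum_coeff, Finset.sum_eq_single (k - 1)]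
    · rw [Polynomial.finset_sum_coeff, Finset.sum_eq_single (l - 1)]
      · rw [Polynomial.coeff_C_mul_X_pow, if_pos (by omega)]
        rfl
      · intro b hb hne
        rw [Finset.mem_range] at hb
        rw [Polynomial.coeff_C_mul_X_pow, if_neg (by omega)]
      · intro hn
        exact absurd (Finset.mem_range.2 (by omega)) hn
    · intro a ha hne
      rw [Finset.mem_range] at ha
      rw [Polynomial.finset_sum_coeff]
      refine Finset.sum_eq_zero fun b hb => ?_
      rw [Finset.mem_range] at hb
      rw [Polynomial.coeff_C_mul_X_pow, if_neg (by omega)]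
    · intro hn
      exact absurd (Finset.mem_range.2 (by omega)) hn

end Pool.Agent.Helper9.FC
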